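import Pool.Agent.Y706.CH.Stm2
import Pool.Agent.Y784.CH.A

/-!
# Project CH: heights of preperiodic points and of critical points (S_HB)
-/

namespace Pool.Agent.Y784.CH

open Pool.Agent.Y706.CH
open Pool.Agent.W277.UB Pool.Agent.W277.UG Pool.Agent.W277.UH Finset Polynomial

universe u v w

/-- the local bound -/
lemma loc_bound {k : Type*} {K : Type u} [Field k] [Field K] [Algebra k K] [DecidableEq K]
    (Q : PlaceData k K) (v : Q.Pl) (d : ℕ) (hd : 2 ≤ d) (p q : K[X]) (hp : p.natDegree ≤ d)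
    (hq : q.natDegree = d) (hres : resultant q p d d ≠ 0) (P : Finset K)
    (hP : ∀ z ∈ P, q.eval z ≠ 0 ∧ p.eval z / q.eval z ∈ P) (M : ℝ)
    (hpM : ∀ i, p.coeff i ≠ 0 → -M ≤ Q.ord v (p.coeff i))
    (hqM : ∀ i, q.coeff i ≠ 0 → -M ≤ Q.ord v (q.coeff i)) (a : K → ℝ)
    (ha : ∀ z ∈ P, (d : ℝ) * a z = Q.ord v (q.eval z) + a (p.eval z / q.eval z)) :
    ∀ z ∈ P, (Q.pole v z : ℝ) ≤
      -a z + (Q.ord v (resultant q p d d) + (2 * d - 1) * M) / (d - 1) := by
  classical
  have hdR : (2 : ℝ) ≤ d := by exact_mod_cast hd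
  have hq0 : q ≠ 0 := by
    rintro rfl
    rw [natDegree_zero] at hq
    omega
  have hne : (p.coeffs ∪ q.coeffs).Nonempty := by
    refine ⟨q.leadingCoeff, Finset.mem_union_right _ ?_⟩
    rw [mem_coeffs_iff]
    exact ⟨q.natDegree, natDegree_mem_support_of_nonzero hq0, rfl⟩
  obtain ⟨c, hcm, hcmin⟩ := Finset.exists_min_image (p.coeffs ∪ q.coeffs) (fun x => Q.ord v x) hne
  have hcc : c ≠ 0 ∧ -M ≤ Q.ord v c := by
    rcases Finset.mem_union.mp hcm with h | h
    · rw [mem_coeffs_iff] at h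
      obtain ⟨i, hi, rfl⟩ := h
      exact ⟨mem_support_iff.mp hi, hpM i (mem_support_iff.mp hi)⟩
    · rw [mem_coeffs_iff] at h
      obtain ⟨i, hi, rfl⟩ := h
      exact ⟨mem_support_iff.mp hi, hqM i (mem_support_iff.mp hi)⟩
  obtain ⟨hc0, hcM⟩ := hcc
  have hpc : ∀ i, Q.G v (Q.ord v c) (p.coeff i) := by
    intro i hi
    exact hcmin _ (Finset.mem_union_left _ (mem_coeffs_iff.mpr ⟨i, mem_support_iff.mpr hi, rfl⟩))
  have hqc : ∀ i, Q.G v (Q.ord v c) (q.coeff i) := by
    intro i hi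
    exact hcmin _ (Finset.mem_union_right _ (mem_coeffs_iff.mpr ⟨i, mem_support_iff.mpr hi, rfl⟩))
  set K' : ℝ := Q.ord v (resultant q p d d) + (2 * d - 1) * M with hK'
  have hstep : ∀ z ∈ P, (d : ℝ) * Q.pole v z ≤
      -(Q.ord v (q.eval z) : ℝ) + Q.pole v (p.eval z / q.eval z) + K' := by
    intro z hz
    have hqz := (hP z hz).1
    have h1 : Q.G v (Q.ord v (q.eval z) - Q.pole v (p.eval z / q.eval z)) (p.eval z) := by
      have h2 : Q.G v (Q.ord v (q.eval z)) (q.eval z) := fun _ => le_rfl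
      have h3 := PlaceData.G_mul h2 (PlaceData.G_pole v (p.eval z / q.eval z))
      rw [mul_div_cancel₀ _ hqz] at h3
      exact PlaceData.G_mono h3 (by linarith)
    have h2 : Q.G v (Q.ord v (q.eval z) - Q.pole v (p.eval z / q.eval z)) (q.eval z) := by
      intro _
      have := PlaceData.pole_nonneg v (p.eval z / q.eval z)
      linarith
    have h3 := low d (by omega) p q hp hq.le c hc0 hpc hqc hres z _ h1 h2
    have h4 : ((Q.ord v (q.eval z) - Q.pole v (p.eval z / q.eval z) : ℤ) : ℝ) ≤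
        ((Q.ord v (resultant q p d d) - (2 * d - 1) * Q.ord v c - d * Q.pole v z : ℤ) : ℝ) := by
      exact_mod_cast h3
    push_cast at h4
    have h5 : (0 : ℝ) ≤ (2 * d - 1) * (M + Q.ord v c) :=
      mul_nonneg (by linarith) (by linarith)
    rw [hK']
    nlinarith
  intro z hz
  obtain ⟨w0, hw0, hmin⟩ := Finset.exists_min_image P (fun z => -a z - (Q.pole v z : ℝ)) ⟨z, hz⟩
  have h1 := hmin _ (hP w0 hw0).2
  have h2 := hstep w0 hw0
  have h3 := ha w0 hw0
  have h4 := hmin z hz
  have h5 : -K' ≤ ((d : ℝ) - 1) * (-a w0 - (Q.pole v w0 : ℝ)) := by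
    nlinarith
  have hd1 : (0 : ℝ) < (d : ℝ) - 1 := by linarith
  have h6 : -(K' / ((d : ℝ) - 1)) ≤ -a w0 - (Q.pole v w0 : ℝ) := by
    rw [← neg_div, div_le_iff₀ hd1]
    linarith
  linarith

theorem t_HB : S_HB.{u, v, w} := by
  classical
  intro d hd k K _ _ _ _ _ Q p q hp hq hco Cr hC P hP S₀ M H hM hM0 hpM hqM hH
  have hwt : ∀ v, (0 : ℝ) ≤ Q.wt v := fun v => by exact_mod_cast Q.wt_nonneg v
  have hH0 : 0 ≤ H := le_trans (Finset.sum_nonneg fun v _ => mul_nonneg (hwt v) (hM v)) hH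
  have hdR : (2 : ℝ) ≤ d := by exact_mod_cast hd
  have hfin : ∀ E : Finset K, ∃ T : Finset Q.Pl, ∀ v, v ∉ T → ∀ x ∈ E, x ≠ 0 →
      Q.ord v x = 0 := by
    intro E
    refine ⟨E.biUnion (fun x => if h : x ≠ 0 then (Q.fin x h).toFinset else ∅), ?_⟩
    intro v hv x hx hx0
    by_contra h
    apply hv
    rw [Finset.mem_biUnion]
    refine ⟨x, hx, ?_⟩
    rw [dif_pos hx0, Set.Finite.mem_toFinset]
    exact h
  have hMS : ∀ S' : Finset Q.Pl, S₀ ⊆ S' → ∑ v ∈ S', (Q.wt v : ℝ) * M v ≤ H := by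
    intro S' h
    refine le_trans (le_of_eq ?_) hH
    symm
    apply Finset.sum_subset h
    intro v _ hv
    rw [hM0 v hv, mul_zero]
  have hpole : ∀ v (x : K), (0 : ℝ) ≤ Q.pole v x := fun v x => by
    exact_mod_cast PlaceData.pole_nonneg v x
  constructor
  · intro z hz S _
    have hres := res_ne d p q hp hq (by omega) hco
    set fz : K → K := fun z => p.eval z / q.eval z with hfz
    have hf : ∀ z ∈ P, fz z ∈ P := fun z hz => (hP z hz).2
    choose a ha using fun v => exists_a d hd P fz hf (fun z => (Q.ord v (q.eval z) : ℝ))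
    obtain ⟨T, hT⟩ := hfin (insert (resultant q p d d) (P.image q.eval))
    have hTr : ∀ v, v ∉ T → Q.ord v (resultant q p d d) = 0 := fun v hv =>
      hT v hv _ (Finset.mem_insert_self _ _) hres
    have hTq : ∀ v, v ∉ T → ∀ z ∈ P, Q.ord v (q.eval z) = 0 := fun v hv z hz =>
      hT v hv _ (Finset.mem_insert_of_mem (Finset.mem_image_of_mem _ hz)) (hP z hz).1
    set S' : Finset Q.Pl := S ∪ (S₀ ∪ T) with hS'
    have hSS : S ⊆ S' := Finset.subset_union_left
    have hS0 : S₀ ⊆ S' := Finset.subset_union_left.trans Finset.subset_union_right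
    have hTS : T ⊆ S' := Finset.subset_union_right.trans Finset.subset_union_right
    have hwa : ∀ x ∈ P, ∑ v ∈ S', (Q.wt v : ℝ) * a v x = 0 := by
      apply stable_zero d hd P fz hf (fun x => ∑ v ∈ S', (Q.wt v : ℝ) * a v x)
      intro z hz
      have h1 := prod_zero Q S' (q.eval z) (hP z hz).1
        (fun v hv => hTq v (fun h => hv (hTS h)) z hz)
      have h2 : ∑ v ∈ S', (Q.wt v : ℝ) * (Q.ord v (q.eval z) : ℝ) = 0 := by exact_mod_cast h1
      have h3 : (d : ℝ) * ∑ v ∈ S', (Q.wt v : ℝ) * a v z =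
          ∑ v ∈ S', (Q.wt v : ℝ) * (Q.ord v (q.eval z) : ℝ) +
            ∑ v ∈ S', (Q.wt v : ℝ) * a v (fz z) := by
        rw [Finset.mul_sum, ← Finset.sum_add_distrib]
        apply Finset.sum_congr rfl
        intro v _
        have := ha v z hz
        linear_combination (Q.wt v : ℝ) * this
      rw [h3, h2, zero_add]
    have hwr : ∑ v ∈ S', (Q.wt v : ℝ) * (Q.ord v (resultant q p d d) : ℝ) = 0 := by
      have h1 := prod_zero Q S' _ hres (fun v hv => hTr v (fun h => hv (hTS h)))
      exact_mod_cast h1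
    have hb : ∀ v, (Q.pole v z : ℝ) ≤
        -a v z + (Q.ord v (resultant q p d d) + (2 * d - 1) * M v) / (d - 1) := fun v =>
      loc_bound Q v d hd p q hp hq hres P hP (M v) (hpM v) (hqM v) (a v) (ha v) z hz
    have hd1 : (0 : ℝ) < (d : ℝ) - 1 := by linarith
    calc ∑ v ∈ S, (Q.wt v : ℝ) * Q.pole v z ≤ ∑ v ∈ S', (Q.wt v : ℝ) * Q.pole v z :=
          Finset.sum_le_sum_of_subset_of_nonneg hSS fun v _ _ => mul_nonneg (hwt v) (hpole v z)
      _ ≤ ∑ v ∈ S', (Q.wt v : ℝ) *
          (-a v z + (Q.ord v (resultant q p d d) + (2 * d - 1) * M v) / (d - 1)) :=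
          Finset.sum_le_sum fun v _ => mul_le_mul_of_nonneg_left (hb v) (hwt v)
      _ = -(∑ v ∈ S', (Q.wt v : ℝ) * a v z) +
          (∑ v ∈ S', (Q.wt v : ℝ) * (Q.ord v (resultant q p d d) : ℝ)) / (d - 1) +
          (2 * d - 1) / (d - 1) * ∑ v ∈ S', (Q.wt v : ℝ) * M v := by
          rw [Finset.mul_sum, Finset.sum_div, ← Finset.sum_neg_distrib,
            ← Finset.sum_add_distrib, ← Finset.sum_add_distrib]
          apply Finset.sum_congr rfl
          intro v _
          field_simp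
          ring
      _ = (2 * d - 1) / (d - 1) * ∑ v ∈ S', (Q.wt v : ℝ) * M v := by
          rw [hwa z hz, hwr]
          simp
      _ ≤ (2 * d - 1) / (d - 1) * H := by
          apply mul_le_mul_of_nonneg_left (hMS S' hS0)
          exact div_nonneg (by linarith) hd1.le
      _ ≤ 10 * d * H := by
          apply mul_le_mul_of_nonneg_right _ hH0
          rw [div_le_iff₀ hd1]
          nlinarith
  · intro i hi S _
    set W : K[X] := derivative p * q - p * derivative q with hWdef
    set x : K := (Cr i).1 / (Cr i).2 with hx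
    have hWx : W.eval x = 0 := by
      rw [hWdef, hC.2 x]
      apply Finset.prod_eq_zero (Finset.mem_univ i)
      unfold wd
      rw [hx]
      field_simp
      ring
    have hW : W ≠ 0 := by
      have : CharZero K := charZero_of_injective_algebraMap (algebraMap k K).injective
      obtain ⟨y, hy⟩ := Infinite.exists_notMem_finset
        (Finset.univ.image fun i => (Cr i).1 / (Cr i).2)
      intro h0
      have h1 := hC.2 y
      rw [← hWdef, h0, eval_zero] at h1
      obtain ⟨j, _, hj⟩ := Finset.prod_eq_zero_iff.mp h1.symm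
      unfold wd at hj
      by_cases hj2 : (Cr j).2 = 0
      · apply hC.1 j
        have h2 : (Cr j).1 = 0 := by
          simp only [hj2] at hj
          linear_combination -hj
        exact Prod.ext h2 hj2
      · apply hy
        rw [Finset.mem_image]
        refine ⟨j, Finset.mem_univ j, ?_⟩
        rw [div_eq_iff hj2]
        linear_combination -hj
    have hl : W.leadingCoeff ≠ 0 := leadingCoeff_ne_zero.mpr hW
    have hb : ∀ v, (Q.pole v x : ℝ) ≤ 2 * M v + Q.ord v W.leadingCoeff := by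
      intro v
      have hfl : ∀ f : K[X], (∀ i, f.coeff i ≠ 0 → -M v ≤ Q.ord v (f.coeff i)) →
          ∀ i, Q.G v (-⌊M v⌋) (f.coeff i) := by
        intro f hf i hi
        have h1 := hf i hi
        have h2 : -Q.ord v (f.coeff i) ≤ ⌊M v⌋ := by
          rw [Int.le_floor]
          push_cast
          linarith
        linarith
      have hder : ∀ f : K[X], (∀ i, Q.G v (-⌊M v⌋) (f.coeff i)) →
          ∀ i, Q.G v (-⌊M v⌋) ((derivative f).coeff i) := by
        intro f hf i
        rw [coeff_derivative]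
        have h1 := PlaceData.G_mul (hf (i + 1)) (PlaceData.G_alg (Q := Q) (v := v) ((i : k) + 1))
        rw [map_add, map_natCast, map_one, add_zero] at h1
        exact h1
      have hmul : ∀ f g : K[X], (∀ i, Q.G v (-⌊M v⌋) (f.coeff i)) →
          (∀ i, Q.G v (-⌊M v⌋) (g.coeff i)) → ∀ i, Q.G v (-(2 * ⌊M v⌋)) ((f * g).coeff i) := by
        intro f g hf hg i
        rw [coeff_mul]
        apply PlaceData.G_sum
        intro j _
        exact PlaceData.G_mono (PlaceData.G_mul (hf j.1) (hg j.2)) (by linarith)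
      have hWc : ∀ i, Q.G v (-(2 * ⌊M v⌋)) (W.coeff i) := by
        intro i
        rw [hWdef, coeff_sub]
        exact PlaceData.G_sub (hmul _ _ (hder p (hfl p (hpM v))) (hfl q (hqM v)) i)
          (hmul _ _ (hfl p (hpM v)) (hder q (hfl q (hqM v))) i)
      have h1 := root_pole W hW _ hWc x hWx
      have h2 : (Q.pole v x : ℝ) ≤ ((2 * ⌊M v⌋ + Q.ord v W.leadingCoeff : ℤ) : ℝ) := by
        exact_mod_cast h1
      push_cast at h2
      have h3 := Int.floor_le (M v)
      linarith
    obtain ⟨T, hT⟩ := hfin {W.leadingCoeff}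
    set S' : Finset Q.Pl := S ∪ (S₀ ∪ T) with hS'
    have hSS : S ⊆ S' := Finset.subset_union_left
    have hS0 : S₀ ⊆ S' := Finset.subset_union_left.trans Finset.subset_union_right
    have hTS : T ⊆ S' := Finset.subset_union_right.trans Finset.subset_union_right
    have hwr : ∑ v ∈ S', (Q.wt v : ℝ) * (Q.ord v W.leadingCoeff : ℝ) = 0 := by
      have h1 := prod_zero Q S' _ hl
        (fun v hv => hT v (fun h => hv (hTS h)) _ (Finset.mem_singleton_self _) hl)
      exact_mod_cast h1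
    calc ∑ v ∈ S, (Q.wt v : ℝ) * Q.pole v x ≤ ∑ v ∈ S', (Q.wt v : ℝ) * Q.pole v x :=
          Finset.sum_le_sum_of_subset_of_nonneg hSS fun v _ _ => mul_nonneg (hwt v) (hpole v x)
      _ ≤ ∑ v ∈ S', (Q.wt v : ℝ) * (2 * M v + Q.ord v W.leadingCoeff) :=
          Finset.sum_le_sum fun v _ => mul_le_mul_of_nonneg_left (hb v) (hwt v)
      _ = 2 * (∑ v ∈ S', (Q.wt v : ℝ) * M v) +
          ∑ v ∈ S', (Q.wt v : ℝ) * (Q.ord v W.leadingCoeff : ℝ) := by
          rw [Finset.mul_sum, ← Finset.sum_add_distrib]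
          apply Finset.sum_congr rfl
          intro v _
          ring
      _ ≤ 10 * d * H := by
          rw [hwr, add_zero]
          have := hMS S' hS0
          nlinarith

end Pool.Agent.Y784.CH
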